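import Mathlib

/-!
A Vandermonde / Fourier lemma on functions `D : ZMod p → ZMod p → ℤ` all of whose sums along
lines of many slopes vanish.
-/

namespace Pool.Agent.W_MP_a7fafd_co

open Finset

variable {p : ℕ} [Fact p.Prime]

/-- Fourier coefficient of column `j`. -/
noncomputable def fc (D : ZMod p → ZMod p → ℤ) (j t : ZMod p) : ℂ :=
  ∑ z : ZMod p, (D j z : ℂ) * ZMod.stdAddChar (t * z)

lemma fc_line (D : ZMod p → ZMod p → ℤ) (q t : ZMod p)
    (h : ∀ v, ∑ j : ZMod p, D j (v + j * q) = 0) :
    ∑ j : ZMod p, (ZMod.stdAddChar (-(t * q) * j) : ℂ) * fc D j t = 0 := by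
  have h1 : ∀ j : ZMod p, (ZMod.stdAddChar (-(t * q) * j) : ℂ) * fc D j t
      = ∑ v : ZMod p, (D j (v + j * q) : ℂ) * ZMod.stdAddChar (t * v) := by
    intro j
    unfold fc
    rw [Finset.mul_sum]
    rw [← Equiv.sum_comp (Equiv.addRight (j * q))]
    apply Finset.sum_congr rfl
    intro v _
    simp only [Equiv.coe_addRight]
    have : (ZMod.stdAddChar (t * v) : ℂ)
        = ZMod.stdAddChar (-(t * q) * j) * ZMod.stdAddChar (t * (v + j * q)) := by
      rw [← AddChar.map_add_eq_mul]
      congr 1
      ring
    rw [this]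
    ring
  rw [Finset.sum_congr rfl (fun j _ => h1 j)]
  rw [Finset.sum_comm]
  apply Finset.sum_eq_zero
  intro v _
  rw [← Finset.sum_mul]
  have : (∑ j : ZMod p, (D j (v + j * q) : ℂ)) = ((∑ j : ZMod p, D j (v + j * q) : ℤ) : ℂ) := by
    push_cast
    rfl
  rw [this, h v]
  simp

lemma fc_inv (D : ZMod p → ZMod p → ℤ) (j : ZMod p) (h : ∀ t, fc D j t = 0) (z : ZMod p) :
    D j z = 0 := by
  have h1 : ∑ t : ZMod p, (ZMod.stdAddChar (-(t * z)) : ℂ) * fc D j t = (p : ℂ) * D j z := by
    unfold fc
    simp_rw [Finset.mul_sum]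
    rw [Finset.sum_comm]
    have h2 : ∀ x : ZMod p, ∑ t : ZMod p, (ZMod.stdAddChar (-(t * z)) : ℂ) *
        ((D j x : ℂ) * ZMod.stdAddChar (t * x)) = (D j x : ℂ) * (if x = z then (p : ℂ) else 0) := by
      intro x
      have h3 : ∀ t : ZMod p, (ZMod.stdAddChar (-(t * z)) : ℂ) *
        ((D j x : ℂ) * ZMod.stdAddChar (t * x)) = (D j x : ℂ) * ZMod.stdAddChar (t * (x - z)) := by
        intro t
        have : (ZMod.stdAddChar (t * (x - z)) : ℂ)
          = ZMod.stdAddChar (-(t * z)) * ZMod.stdAddChar (t * x) := by
          rw [← AddChar.map_add_eq_mul]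
          congr 1
          ring
        rw [this]
        ring
      rw [Finset.sum_congr rfl (fun t _ => h3 t), ← Finset.mul_sum]
      congr 1
      have := AddChar.sum_mulShift (R := ZMod p) (R' := ℂ) (x - z) (ZMod.isPrimitive_stdAddChar p)
      rw [this]
      simp [sub_eq_zero]
    rw [Finset.sum_congr rfl (fun x _ => h2 x)]
    simp [mul_comm]
  simp only [h, mul_zero, Finset.sum_const_zero] at h1
  have hp : (p : ℂ) ≠ 0 := by
    exact_mod_cast (Fact.out : p.Prime).ne_zero
  have := (mul_eq_zero.mp h1.symm).resolve_left hp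
  exact_mod_cast this

/-- If all line sums of `D` vanish in the directions `q ∈ G`, the columns of `D` sum to zero and
`D` vanishes on the columns `a + i`, `m ≤ i < p`, where `m ≤ |G|`, then `D = 0`. -/
lemma vander (D : ZMod p → ZMod p → ℤ) (hcol : ∀ j, ∑ z : ZMod p, D j z = 0)
    (G : Finset (ZMod p)) (a : ZMod p) (m : ℕ) (hm : m ≤ G.card)
    (hsupp : ∀ i : ℕ, m ≤ i → i < p → ∀ z, D (a + (i : ZMod p)) z = 0)
    (hG : ∀ q ∈ G, ∀ v, ∑ j : ZMod p, D j (v + j * q) = 0) :
    ∀ j z, D j z = 0 := by
  classical
  have hp : p.Prime := Fact.out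
  have key : ∀ t : ZMod p, t ≠ 0 → ∀ i : ℕ, i < p → fc D (a + (i : ZMod p)) t = 0 := by
    intro t ht
    set Q : Polynomial ℂ := ∑ i ∈ range m, Polynomial.C (fc D (a + (i : ZMod p)) t) * Polynomial.X ^ i with hQ
    have hz : ∀ i : ℕ, m ≤ i → i < p → fc D (a + (i : ZMod p)) t = 0 := by
      intro i h1 h2
      unfold fc
      apply Finset.sum_eq_zero
      intro z _
      rw [hsupp i h1 h2 z]
      simp
    have hroot : ∀ q ∈ G, Q.eval (ZMod.stdAddChar (-(t * q)) : ℂ) = 0 := by
      intro q hq
      have h1 := fc_line D q t (hG q hq)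
      -- reindex j = a + i
      have h2 : ∑ j : ZMod p, (ZMod.stdAddChar (-(t * q) * j) : ℂ) * fc D j t
          = ∑ i ∈ range p, (ZMod.stdAddChar (-(t * q) * (a + (i : ZMod p))) : ℂ) * fc D (a + (i : ZMod p)) t := by
        rw [← Equiv.sum_comp (Equiv.addLeft a)]
        simp only [Equiv.coe_addLeft]
        symm
        apply Finset.sum_bij (fun (i : ℕ) _ => (i : ZMod p))
        · intro i _; exact Finset.mem_univ _
        · intro i hi k hk hik
          have hi' := Finset.mem_range.mp hi
          have hk' := Finset.mem_range.mp hk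
          have := (ZMod.natCast_eq_natCast_iff' i k p).mp hik
          rwa [Nat.mod_eq_of_lt hi', Nat.mod_eq_of_lt hk'] at this
        · intro j _
          refine ⟨j.val, Finset.mem_range.mpr (ZMod.val_lt j), ?_⟩
          simp
        · intro i _
          rfl
      rw [h2] at h1
      have h3 : ∀ i : ℕ, (ZMod.stdAddChar (-(t * q) * (a + (i : ZMod p))) : ℂ)
          = ZMod.stdAddChar (-(t * q) * a) * (ZMod.stdAddChar (-(t * q)) : ℂ) ^ i := by
        intro i
        rw [← AddChar.map_nsmul_eq_pow, ← AddChar.map_add_eq_mul]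
        congr 1
        rw [nsmul_eq_mul]
        ring
      have h4 : ∑ i ∈ range p, (ZMod.stdAddChar (-(t * q) * (a + (i : ZMod p))) : ℂ) * fc D (a + (i : ZMod p)) t
          = ZMod.stdAddChar (-(t * q) * a) * Q.eval (ZMod.stdAddChar (-(t * q)) : ℂ) := by
        rw [hQ, Polynomial.eval_finsetSum, Finset.mul_sum]
        have hsplit : ∑ i ∈ range p, (ZMod.stdAddChar (-(t * q) * (a + (i : ZMod p))) : ℂ) * fc D (a + (i : ZMod p)) t
            = ∑ i ∈ range m, (if i < p then
                (ZMod.stdAddChar (-(t * q) * (a + (i : ZMod p))) : ℂ) * fc D (a + (i : ZMod p)) t else 0) := by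
          rw [← Finset.sum_filter]
          symm
          apply Finset.sum_subset
          · intro i hi
            simp only [Finset.mem_filter, Finset.mem_range] at hi ⊢
            exact hi.2
          · intro i hi hni
            simp only [Finset.mem_filter, Finset.mem_range, not_and, not_lt] at hi hni
            have : m ≤ i := by
              by_contra hlt
              push Not at hlt
              exact absurd (hni hlt) (by omega)
            rw [hz i this hi, mul_zero]
        rw [hsplit]
        apply Finset.sum_congr rfl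
        intro i hi
        have him := Finset.mem_range.mp hi
        have hmp : m ≤ p := le_trans hm (le_trans (Finset.card_le_univ G) (by rw [ZMod.card]))
        have hip : i < p := lt_of_lt_of_le him hmp
        rw [if_pos hip, h3 i]
        simp only [Polynomial.eval_mul, Polynomial.eval_C, Polynomial.eval_pow, Polynomial.eval_X]
        ring
      rw [h4] at h1
      have hne : (ZMod.stdAddChar (-(t * q) * a) : ℂ) ≠ 0 := by
        intro h0
        have := AddChar.norm_apply (ZMod.stdAddChar (N := p)) (-(t * q) * a)
        rw [h0] at this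
        simp at this
      exact (mul_eq_zero.mp h1).resolve_left hne
    have hQ0 : Q = 0 := by
      by_cases hm0 : m = 0
      · rw [hQ, hm0]; simp
      have hdeg : Q.natDegree < (G.image (fun q => (ZMod.stdAddChar (-(t * q)) : ℂ))).card := by
        have hinj : Set.InjOn (fun q => (ZMod.stdAddChar (-(t * q)) : ℂ)) (G : Set (ZMod p)) := by
          intro x _ x' _ hxx
          have := ZMod.injective_stdAddChar hxx
          have h5 : t * x = t * x' := by
            have := congrArg (fun u => -u) this
            simpa using this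
          exact mul_left_cancel₀ ht h5
        rw [Finset.card_image_of_injOn hinj]
        have : Q.natDegree ≤ m - 1 := by
          rw [hQ]
          apply Polynomial.natDegree_sum_le_of_forall_le
          intro i hi
          have := Finset.mem_range.mp hi
          refine le_trans (Polynomial.natDegree_C_mul_X_pow_le _ _) (by omega)
        omega
      apply Polynomial.eq_zero_of_natDegree_lt_card_of_eval_eq_zero' Q
        (G.image (fun q => (ZMod.stdAddChar (-(t * q)) : ℂ))) _ hdeg
      intro r hr
      rw [Finset.mem_image] at hr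
      obtain ⟨q, hq, rfl⟩ := hr
      exact hroot q hq
    intro i hi
    by_cases him : m ≤ i
    · exact hz i him hi
    · push Not at him
      have hco : Q.coeff i = fc D (a + (i : ZMod p)) t := by
        rw [hQ, Polynomial.finsetSum_coeff]
        simp only [Polynomial.coeff_C_mul, Polynomial.coeff_X_pow]
        rw [Finset.sum_eq_single i]
        · simp
        · intro b _ hb
          simp [Ne.symm hb]
        · intro hni
          exact absurd (Finset.mem_range.mpr him) hni
      rw [← hco, hQ0]
      simp
  intro j z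
  apply fc_inv
  intro t
  by_cases ht : t = 0
  · subst ht
    unfold fc
    have : (∑ z : ZMod p, (D j z : ℂ) * ZMod.stdAddChar (0 * z))
        = ((∑ z : ZMod p, D j z : ℤ) : ℂ) := by
      push_cast
      apply Finset.sum_congr rfl
      intro z _
      simp
    rw [this, hcol j]
    simp
  · have h1 := key t ht (j - a).val (ZMod.val_lt _)
    have h2 : a + (((j - a).val : ℕ) : ZMod p) = j := by
      rw [ZMod.natCast_val, ZMod.cast_id]
      ring
    rwa [h2] at h1

end Pool.Agent.W_MP_a7fafd_co
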