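import Mathlib
import Pool.Agent.W_MP_a7fafd_co.Vander

/-!
The generalized Rudin-Shapiro word over `ZMod 41 × ZMod 41` and the exact desubstitution of
abelian equivalent factors.
-/

namespace Pool.Agent.W_MP_a7fafd_co

open Finset

instance fact41 : Fact (Nat.Prime 41) := ⟨by norm_num⟩

abbrev Z := ZMod 41

/-- second component of the word -/
def y (n : ℕ) : Z :=
  if _h : n = 0 then 0 else y (n / 41) + (n : Z) * ((n / 41 : ℕ) : Z)
termination_by n
decreasing_by omega

/-- the word -/
def W (n : ℕ) : Z × Z := ((n : Z), y n)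

lemma y_zero : y 0 = 0 := by
  rw [y]; simp

lemma y_rec (n : ℕ) : y n = y (n / 41) + (n : Z) * ((n / 41 : ℕ) : Z) := by
  by_cases h : n = 0
  · subst h; simp [y_zero]
  · conv_lhs => rw [y]
    rw [dif_neg h]

lemma cast41 (n j : ℕ) : ((41 * n + j : ℕ) : Z) = (j : Z) := by
  push_cast
  have : (41 : Z) = 0 := by decide
  rw [this]; ring

lemma y_block (n j : ℕ) (hj : j < 41) : y (41 * n + j) = y n + (j : Z) * (n : Z) := by
  rw [y_rec, cast41]
  have : (41 * n + j) / 41 = n := by omega
  rw [this]

/-- prefix Parikh vector -/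
def P (n : ℕ) (a : Z × Z) : ℤ := ∑ t ∈ range n, if W t = a then 1 else 0

/-- prefix line counts -/
def Lam (n : ℕ) (q v : Z) : ℤ := ∑ t ∈ range n, if y t = v + (t : Z) * q then 1 else 0

lemma Lam_eq (n : ℕ) (q v : Z) : Lam n q v = ∑ j : Z, P n (j, v + j * q) := by
  unfold Lam P
  rw [Finset.sum_comm]
  apply Finset.sum_congr rfl
  intro t _
  rw [Finset.sum_eq_single (t : Z)]
  · simp [W]
  · intro b _ hb
    rw [if_neg]
    intro h
    apply hb
    simp only [W, Prod.mk.injEq] at h
    exact h.1.symm
  · intro h; exact absurd (Finset.mem_univ _) h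

lemma sum_range_val (r : ℕ) (hr : r ≤ 41) (f : Z → ℤ) :
    ∑ j ∈ range r, f (j : Z) = ∑ j : Z, if j.val < r then f j else 0 := by
  rw [← Finset.sum_filter]
  apply Finset.sum_bij (fun (i : ℕ) _ => (i : Z))
  · intro i hi
    have hi' := Finset.mem_range.mp hi
    simp only [Finset.mem_filter, Finset.mem_univ, true_and]
    rw [ZMod.val_natCast, Nat.mod_eq_of_lt (by omega)]
    exact hi'
  · intro i hi k hk hik
    have hi' := Finset.mem_range.mp hi
    have hk' := Finset.mem_range.mp hk
    have := (ZMod.natCast_eq_natCast_iff' i k 41).mp hik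
    omega
  · intro j hj
    simp only [Finset.mem_filter, Finset.mem_univ, true_and] at hj
    exact ⟨j.val, Finset.mem_range.mpr hj, by simp⟩
  · intro i _
    rfl

lemma sum_ge_val (r : ℕ) (f : Z → ℤ) :
    (∑ j : Z, f j) = (∑ j : Z, if j.val < r then f j else 0)
      + ∑ j : Z, if r ≤ j.val then f j else 0 := by
  rw [← Finset.sum_add_distrib]
  apply Finset.sum_congr rfl
  intro j _
  by_cases h : j.val < r
  · rw [if_pos h, if_neg (by omega)]; ring
  · rw [if_neg h, if_pos (by omega)]; ring

/-- indicator that the `j`-th point of block `m` lies on the line `(q, v)` -/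
def hit (m : ℕ) (q v j : Z) : ℤ := if v + j * q = y m + j * (m : Z) then 1 else 0

lemma Lam_add (m r : ℕ) (hr : r ≤ 41) (q v : Z) :
    Lam (41 * m + r) q v = Lam (41 * m) q v + ∑ j : Z, if j.val < r then hit m q v j else 0 := by
  rw [← sum_range_val r hr]
  unfold Lam
  rw [Finset.sum_range_add]
  congr 1
  apply Finset.sum_congr rfl
  intro j hj
  have hj' := Finset.mem_range.mp hj
  rw [y_block m j (by omega), cast41]
  unfold hit
  by_cases h : y m + (j : Z) * (m : Z) = v + (j : Z) * q
  · rw [if_pos h, if_pos h.symm]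
  · rw [if_neg h, if_neg (fun h' => h h'.symm)]

lemma sum_hit_ne (m : ℕ) (q v : Z) (h : (m : Z) ≠ q) : ∑ j : Z, hit m q v j = 1 := by
  have hne : (m : Z) - q ≠ 0 := sub_ne_zero.mpr h
  rw [Finset.sum_eq_single ((v - y m) / ((m : Z) - q))]
  · unfold hit
    rw [if_pos]
    field_simp
    ring
  · intro b _ hb
    unfold hit
    rw [if_neg]
    intro h'
    apply hb
    rw [eq_div_iff hne]
    linear_combination -h'
  · intro h; exact absurd (Finset.mem_univ _) h

lemma sum_hit_eq (m : ℕ) (v : Z) : ∑ j : Z, hit m (m : Z) v j = if y m = v then 41 else 0 := by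
  unfold hit
  have : ∀ j : Z, (v + j * (m : Z) = y m + j * (m : Z)) ↔ (y m = v) := by
    intro j
    constructor
    · intro h; exact (add_right_cancel h).symm
    · intro h; rw [h]
  simp only [this]
  by_cases h : y m = v
  · simp [h, ZMod.card]
  · simp [h]

/-- number of `n < m` not congruent to `q` -/
def R (m : ℕ) (q : Z) : ℤ := ∑ n ∈ range m, if (n : Z) = q then 0 else 1

lemma Lam_block (m : ℕ) (q v : Z) : Lam (41 * m) q v = 41 * P m (q, v) + R m q := by
  induction m with
  | zero => simp [Lam, P, R]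
  | succ m ih =>
    have h1 : 41 * (m + 1) = 41 * m + 41 := by ring
    rw [h1, Lam_add m 41 le_rfl, ih]
    have h2 : (∑ j : Z, if j.val < 41 then hit m q v j else 0) = ∑ j : Z, hit m q v j := by
      apply Finset.sum_congr rfl
      intro j _
      rw [if_pos (ZMod.val_lt j)]
    rw [h2]
    unfold P R
    rw [Finset.sum_range_succ, Finset.sum_range_succ]
    by_cases h : (m : Z) = q
    · subst h
      rw [sum_hit_eq]
      simp only [W, Prod.mk.injEq, true_and, if_true]
      by_cases h' : y m = v
      · simp only [h', if_true]; ring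
      · simp only [h', if_false]; ring
    · rw [sum_hit_ne m q v h]
      have : W m ≠ (q, v) := by
        intro h'
        simp only [W, Prod.mk.injEq] at h'
        exact h h'.1
      rw [if_neg this, if_neg h]
      ring

/-- rounding map with threshold `c` -/
def rho (c x : ℕ) : ℕ := x / 41 + if c ≤ x % 41 then 1 else 0

/-- signed points between `x` and the rounded block boundary `41 * rho c x` -/
def del (c x : ℕ) (j z : Z) : ℤ :=
  if x % 41 < c then
    (if j.val < x % 41 then (if z = y (x / 41) + j * ((x / 41 : ℕ) : Z) then 1 else 0) else 0)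
  else
    (if x % 41 ≤ j.val then (if z = y (x / 41) + j * ((x / 41 : ℕ) : Z) then -1 else 0) else 0)

lemma Lam_cut (c x : ℕ) (q v : Z) :
    Lam x q v = Lam (41 * rho c x) q v + ∑ j : Z, del c x j (v + j * q) := by
  have hx : x = 41 * (x / 41) + x % 41 := (Nat.div_add_mod x 41).symm
  have hr : x % 41 < 41 := Nat.mod_lt _ (by norm_num)
  have h0 : Lam x q v = Lam (41 * (x / 41)) q v
      + ∑ j : Z, if j.val < x % 41 then hit (x / 41) q v j else 0 := by
    conv_lhs => rw [hx]
    exact Lam_add _ _ (by omega) q v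
  by_cases hc : x % 41 < c
  · have h1 : rho c x = x / 41 := by unfold rho; rw [if_neg (by omega)]; rfl
    rw [h1, h0]
    congr 1
    apply Finset.sum_congr rfl
    intro j _
    unfold del hit
    rw [if_pos hc]
  · have h1 : rho c x = x / 41 + 1 := by unfold rho; rw [if_pos (by omega)]
    have h2 : Lam (41 * (x / 41 + 1)) q v = Lam (41 * (x / 41)) q v
        + ∑ j : Z, hit (x / 41) q v j := by
      have : 41 * (x / 41 + 1) = 41 * (x / 41) + 41 := by ring
      rw [this, Lam_add _ 41 le_rfl]
      simp only [ZMod.val_lt, if_true]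
    rw [h1, h0, h2, sum_ge_val (x % 41) (fun j => hit (x / 41) q v j)]
    have h3 : ∑ j : Z, del c x j (v + j * q)
        = - ∑ j : Z, if x % 41 ≤ j.val then hit (x / 41) q v j else 0 := by
      rw [← Finset.sum_neg_distrib]
      apply Finset.sum_congr rfl
      intro j _
      unfold del hit
      rw [if_neg hc]
      split_ifs <;> simp
    rw [h3]
    ring

lemma del_col (c x : ℕ) (j : Z) : ∑ z : Z, del c x j z =
    if x % 41 < c then (if j.val < x % 41 then 1 else 0)
      else (if x % 41 ≤ j.val then -1 else 0) := by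
  unfold del
  by_cases hc : x % 41 < c
  · simp only [if_pos hc]
    by_cases hj : j.val < x % 41
    · simp [if_pos hj]
    · simp [if_neg hj]
  · simp only [if_neg hc]
    by_cases hj : x % 41 ≤ j.val
    · simp [if_pos hj]
    · simp [if_neg hj]

lemma del_line (c x : ℕ) (q v : Z) (h : ((x / 41 : ℕ) : Z) ≠ q) :
    |∑ j : Z, del c x j (v + j * q)| ≤ 1 := by
  have hh := sum_hit_ne (x / 41) q v h
  have hnn : ∀ j, 0 ≤ hit (x / 41) q v j := by
    intro j; unfold hit; split_ifs <;> norm_num
  by_cases hc : x % 41 < c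
  · have h1 : ∑ j : Z, del c x j (v + j * q)
        = ∑ j : Z, if j.val < x % 41 then hit (x / 41) q v j else 0 := by
      apply Finset.sum_congr rfl
      intro j _
      unfold del hit
      rw [if_pos hc]
    rw [h1, abs_of_nonneg]
    · rw [← hh]
      apply Finset.sum_le_sum
      intro j _
      split_ifs
      · exact le_rfl
      · exact hnn j
    · apply Finset.sum_nonneg
      intro j _
      split_ifs
      · exact hnn j
      · exact le_rfl
  · have h1 : ∑ j : Z, del c x j (v + j * q)
        = - ∑ j : Z, if x % 41 ≤ j.val then hit (x / 41) q v j else 0 := by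
      rw [← Finset.sum_neg_distrib]
      apply Finset.sum_congr rfl
      intro j _
      unfold del hit
      rw [if_neg hc]
      split_ifs <;> simp
    rw [h1, abs_neg, abs_of_nonneg]
    · rw [← hh]
      apply Finset.sum_le_sum
      intro j _
      split_ifs
      · exact le_rfl
      · exact hnn j
    · apply Finset.sum_nonneg
      intro j _
      split_ifs
      · exact hnn j
      · exact le_rfl

/-- the residue of `x` stays away from the threshold `c` -/
def Away (c x : ℕ) : Prop := x % 41 + 2 ≤ c ∨ c + 2 ≤ x % 41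

lemma del_supp (c x : ℕ) (hc : Away c x) (j z : Z) (h1 : c ≤ j.val + 2) (h2 : j.val ≤ c + 1) :
    del c x j z = 0 := by
  unfold del
  rcases hc with h | h
  · rw [if_pos (by omega), if_neg (by omega)]
  · rw [if_neg (by omega), if_neg (by omega)]

/-- class counts -/
def K (n : ℕ) (q : Z) : ℤ := ∑ t ∈ range n, if (t : Z) = q then 1 else 0

lemma cast_eq_iff (n : ℕ) (q : Z) : (n : Z) = q ↔ n % 41 = q.val := by
  constructor
  · intro h
    rw [← h, ZMod.val_natCast]
  · intro h
    have : ((n % 41 : ℕ) : Z) = ((q.val : ℕ) : Z) := by rw [h]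
    rw [ZMod.natCast_mod] at this
    rw [this]
    simp

lemma K_eq (n : ℕ) (q : Z) : K n q = ((n + 40 - q.val) / 41 : ℕ) := by
  have hq : q.val < 41 := ZMod.val_lt q
  induction n with
  | zero =>
    unfold K
    simp only [Finset.range_zero, Finset.sum_empty]
    have : (0 + 40 - q.val) / 41 = 0 := by omega
    rw [this]; rfl
  | succ n ih =>
    unfold K at ih ⊢
    rw [Finset.sum_range_succ, ih]
    by_cases h : (n : Z) = q
    · rw [if_pos h]
      rw [cast_eq_iff] at h
      have : (n + 1 + 40 - q.val) / 41 = (n + 40 - q.val) / 41 + 1 := by omega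
      rw [this]; push_cast; ring
    · rw [if_neg h]
      rw [cast_eq_iff] at h
      have : (n + 1 + 40 - q.val) / 41 = (n + 40 - q.val) / 41 := by omega
      rw [this]; ring

lemma K_sum (n : ℕ) (q : Z) : ∑ v : Z, P n (q, v) = K n q := by
  unfold P K
  rw [Finset.sum_comm]
  apply Finset.sum_congr rfl
  intro t _
  by_cases h : (t : Z) = q
  · rw [if_pos h, Finset.sum_eq_single (y t)]
    · simp [W, h]
    · intro b _ hb
      rw [if_neg]
      intro h'
      simp only [W, Prod.mk.injEq] at h'
      exact hb h'.2.symm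
    · intro h'; exact absurd (Finset.mem_univ _) h'
  · rw [if_neg h]
    apply Finset.sum_eq_zero
    intro v _
    rw [if_neg]
    intro h'
    simp only [W, Prod.mk.injEq] at h'
    exact h h'.1

lemma R_eq (n : ℕ) (q : Z) : R n q = n - K n q := by
  unfold R K
  rw [eq_sub_iff_add_eq, ← Finset.sum_add_distrib]
  have : ∀ t : ℕ, ((if (t : Z) = q then 0 else 1) + (if (t : Z) = q then 1 else 0) : ℤ) = 1 := by
    intro t; split_ifs <;> norm_num
  simp [this]

/-- the factors `[s, e)` and `[s', e')` of the word are abelian equivalent -/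
def Eqv (s e s' e' : ℕ) : Prop :=
  s ≤ e ∧ s' ≤ e' ∧ e + s' = e' + s ∧ ∀ a, P e a - P s a = P e' a - P s' a

lemma Eqv.symm {s e s' e' : ℕ} (h : Eqv s e s' e') : Eqv s' e' s e :=
  ⟨h.2.1, h.1, h.2.2.1.symm, fun a => (h.2.2.2 a).symm⟩

lemma Eqv.K {s e s' e' : ℕ} (h : Eqv s e s' e') (q : Z) :
    K e q - K s q = K e' q - K s' q := by
  rw [← K_sum, ← K_sum, ← K_sum, ← K_sum, ← Finset.sum_sub_distrib, ← Finset.sum_sub_distrib]
  apply Finset.sum_congr rfl
  intro v _
  exact h.2.2.2 _

lemma Eqv.Lam {s e s' e' : ℕ} (h : Eqv s e s' e') (q v : Z) :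
    Lam e q v - Lam s q v = Lam e' q v - Lam s' q v := by
  rw [Lam_eq, Lam_eq, Lam_eq, Lam_eq, ← Finset.sum_sub_distrib, ← Finset.sum_sub_distrib]
  apply Finset.sum_congr rfl
  intro v _
  exact h.2.2.2 _

/-- abelian equivalent factors whose length is not divisible by 41 start at congruent positions -/
lemma Eqv.res {s e s' e' : ℕ} (h : Eqv s e s' e') :
    (e - s) % 41 = 0 ∨ s % 41 = s' % 41 := by
  by_contra hcon
  push Not at hcon
  obtain ⟨hl, hs⟩ := hcon
  have hK := h.K
  obtain ⟨h1, h2, h3, _⟩ := h
  have k1 := hK (s : Z)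
  have k2 := hK ((s + 40 : ℕ) : Z)
  rw [K_eq, K_eq, K_eq, K_eq, ZMod.val_natCast] at k1 k2
  omega

/-- Main lemma: exact desubstitution of abelian equivalent factors. -/
lemma Eqv.descend {s e s' e' : ℕ} (h : Eqv s e s' e') (c : ℕ) (hc2 : 2 ≤ c) (hc3 : c ≤ 39)
    (as : Away c s) (ae : Away c e) (as' : Away c s') (ae' : Away c e') :
    Eqv (rho c s) (rho c e) (rho c s') (rho c e') := by
  classical
  have hres := h.res
  have hL := h.Lam
  obtain ⟨h1, h2, h3, _⟩ := h
  -- lengths of the rounded factors
  have hmono1 : rho c s ≤ rho c e := by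
    unfold rho; split_ifs <;> omega
  have hmono2 : rho c s' ≤ rho c e' := by
    unfold rho; split_ifs <;> omega
  have hlen : rho c e + rho c s' = rho c e' + rho c s := by
    unfold rho
    rcases hres with hr | hr
    · have e1 : e % 41 = s % 41 := by omega
      have e2 : e' % 41 = s' % 41 := by omega
      rw [e1, e2]
      split_ifs <;> omega
    · have e1 : e % 41 = e' % 41 := by omega
      rw [e1, hr]
      split_ifs <;> omega
  refine ⟨hmono1, hmono2, hlen, ?_⟩
  -- the difference of the boundary contributions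
  set D : Z → Z → ℤ := fun j z => del c e j z - del c s j z - del c e' j z + del c s' j z with hD
  have hcol : ∀ j, ∑ z : Z, D j z = 0 := by
    intro j
    rw [hD]
    simp only [Finset.sum_add_distrib, Finset.sum_sub_distrib, del_col]
    rcases hres with hr | hr
    · have e1 : e % 41 = s % 41 := by omega
      have e2 : e' % 41 = s' % 41 := by omega
      rw [e1, e2]; ring
    · have e1 : e % 41 = e' % 41 := by omega
      rw [e1, hr]; ring
  -- the fundamental relation
  have hrel : ∀ q v : Z,
      41 * (P (rho c e) (q, v) - P (rho c s) (q, v) - P (rho c e') (q, v) + P (rho c s') (q, v))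
      + (R (rho c e) q - R (rho c s) q - R (rho c e') q + R (rho c s') q)
      + ∑ j : Z, D j (v + j * q) = 0 := by
    intro q v
    have := hL q v
    rw [Lam_cut c e, Lam_cut c s, Lam_cut c e', Lam_cut c s'] at this
    rw [Lam_block, Lam_block, Lam_block, Lam_block] at this
    rw [hD]
    simp only [Finset.sum_add_distrib, Finset.sum_sub_distrib]
    linarith
  -- good slopes
  set G : Finset Z := Finset.univ \ {((s / 41 : ℕ) : Z), ((e / 41 : ℕ) : Z), ((s' / 41 : ℕ) : Z),
    ((e' / 41 : ℕ) : Z)} with hG
  have hGcard : 37 ≤ G.card := by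
    have h1 : ({((s / 41 : ℕ) : Z), ((e / 41 : ℕ) : Z), ((s' / 41 : ℕ) : Z),
        ((e' / 41 : ℕ) : Z)} : Finset Z).card ≤ 4 := Finset.card_le_four
    rw [hG, Finset.card_sdiff_of_subset (Finset.subset_univ _), Finset.card_univ, ZMod.card]
    omega
  have hbound : ∀ q ∈ G, ∀ v, |∑ j : Z, D j (v + j * q)| ≤ 4 := by
    intro q hq v
    rw [hG] at hq
    simp only [Finset.mem_sdiff, Finset.mem_univ, Finset.mem_insert, Finset.mem_singleton,
      true_and, not_or] at hq
    obtain ⟨q1, q2, q3, q4⟩ := hq
    have b1 := abs_le.mp (del_line c s q v (Ne.symm q1))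
    have b2 := abs_le.mp (del_line c e q v (Ne.symm q2))
    have b3 := abs_le.mp (del_line c s' q v (Ne.symm q3))
    have b4 := abs_le.mp (del_line c e' q v (Ne.symm q4))
    rw [hD]
    simp only [Finset.sum_add_distrib, Finset.sum_sub_distrib]
    rw [abs_le]
    constructor <;> linarith [b1.1, b1.2, b2.1, b2.2, b3.1, b3.2, b4.1, b4.2]
  have hzero : ∀ q ∈ G, ∀ v, ∑ j : Z, D j (v + j * q) = 0 := by
    intro q hq
    -- constant in v
    have hconst : ∀ v, ∑ j : Z, D j (v + j * q) = ∑ j : Z, D j (0 + j * q) := by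
      intro v
      have r1 := hrel q v
      have r2 := hrel q 0
      have b1 := abs_le.mp (hbound q hq v)
      have b2 := abs_le.mp (hbound q hq 0)
      omega
    have hsum : ∑ v : Z, ∑ j : Z, D j (v + j * q) = 0 := by
      rw [Finset.sum_comm]
      apply Finset.sum_eq_zero
      intro j _
      have := Equiv.sum_comp (Equiv.addRight (j * q)) (fun z => D j z)
      simp only [Equiv.coe_addRight] at this
      rw [this, hcol j]
    intro v
    rw [hconst v]
    simp only [hconst, Finset.sum_const, Finset.card_univ, ZMod.card, nsmul_eq_mul] at hsum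
    push_cast at hsum
    omega
  have hsupp : ∀ i : ℕ, 37 ≤ i → i < 41 → ∀ z, D ((c + 2 : ℕ) + (i : Z)) z = 0 := by
    intro i hi1 hi2 z
    have hval : (((c + 2 : ℕ) : Z) + (i : Z)).val = c + 2 + i - 41 := by
      rw [← Nat.cast_add, ZMod.val_natCast]
      omega
    rw [hD]
    simp only
    rw [del_supp c e ae _ z (by rw [hval]; omega) (by rw [hval]; omega),
      del_supp c s as _ z (by rw [hval]; omega) (by rw [hval]; omega),
      del_supp c e' ae' _ z (by rw [hval]; omega) (by rw [hval]; omega),
      del_supp c s' as' _ z (by rw [hval]; omega) (by rw [hval]; omega)]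
    ring
  have hD0 := vander D hcol G ((c + 2 : ℕ) : Z) 37 hGcard hsupp hzero
  intro a
  obtain ⟨q, v⟩ := a
  have r1 := hrel q v
  simp only [hD0, Finset.sum_const_zero, add_zero] at r1
  rw [R_eq, R_eq, R_eq, R_eq, K_eq, K_eq, K_eq, K_eq] at r1
  have hq : q.val < 41 := ZMod.val_lt q
  omega

end Pool.Agent.W_MP_a7fafd_co
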