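import Mathlib
import Pool.Agent.W_MP_a7fafd_co.Core

/-!
The word avoids, in the abelian sense, abelian squares and the formulas
abaca.bc, abaca.cb, aba.bcac, aba.cacb, aba.acabc.
-/

namespace Pool.Agent.W_MP_a7fafd_co

open Finset

lemma exists_away (L : List ℕ) (hL : L.length ≤ 12) :
    ∃ c, 2 ≤ c ∧ c ≤ 39 ∧ ∀ x ∈ L, Away c x := by
  classical
  set B : Finset ℕ := L.toFinset.biUnion (fun x => {x % 41 - 1, x % 41, x % 41 + 1}) with hB
  have hBcard : B.card ≤ 36 := by
    have h1 : B.card ≤ L.toFinset.card * 3 := by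
      rw [hB]
      exact Finset.card_biUnion_le_card_mul _ _ _ (fun x _ => Finset.card_le_three)
    have h2 : L.toFinset.card ≤ 12 := le_trans (List.toFinset_card_le L) hL
    omega
  have hne : (Finset.Icc 2 39 \ B).Nonempty := by
    rw [← Finset.card_pos]
    have h1 := Finset.le_card_sdiff B (Finset.Icc 2 39)
    have h2 : (Finset.Icc 2 39).card = 38 := by simp
    omega
  obtain ⟨c, hc⟩ := hne
  rw [Finset.mem_sdiff, Finset.mem_Icc] at hc
  refine ⟨c, hc.1.1, hc.1.2, ?_⟩
  intro x hx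
  have : c ∉ ({x % 41 - 1, x % 41, x % 41 + 1} : Finset ℕ) := by
    intro hcx
    apply hc.2
    rw [hB, Finset.mem_biUnion]
    exact ⟨x, List.mem_toFinset.mpr hx, hcx⟩
  simp only [Finset.mem_insert, Finset.mem_singleton, not_or] at this
  unfold Away
  have := hc.1.1
  omega

lemma rho_add {c s e : ℕ} (h : (e - s) % 41 = 0) (hse : s ≤ e) :
    rho c e = rho c s + (e - s) / 41 := by
  have : e % 41 = s % 41 := by omega
  unfold rho
  rw [this]
  split_ifs <;> omega

lemma rho_lt {c x : ℕ} (hc : 2 ≤ c) (hx : 0 < x) : rho c x < x := by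
  unfold rho
  split_ifs <;> omega

lemma Eqv.trans' {a b c d e f : ℕ} (h1 : Eqv a b c d) (h2 : Eqv a b e f) : Eqv c d e f := by
  obtain ⟨a1, a2, a3, a4⟩ := h1
  obtain ⟨b1, b2, b3, b4⟩ := h2
  refine ⟨a2, b2, by omega, ?_⟩
  intro x
  rw [← a4 x, ← b4 x]

lemma no_square : ∀ l : ℕ, 0 < l → ∀ s : ℕ, ¬ Eqv s (s + l) (s + l) (s + 2 * l) := by
  intro l
  induction l using Nat.strong_induction_on with
  | _ l ih =>
    intro hl s h
    have hres : l % 41 = 0 := by
      rcases h.res with hr | hr <;> omega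
    obtain ⟨c, hc2, hc3, hc⟩ := exists_away [s, s + l, s + 2 * l] (by simp)
    have a1 := hc s (by simp)
    have a2 := hc (s + l) (by simp)
    have a3 := hc (s + 2 * l) (by simp)
    have hd := h.descend c hc2 hc3 a1 a2 a2 a3
    have e1 : rho c (s + l) = rho c s + l / 41 := by
      rw [rho_add (s := s) (by omega) (by omega)]
      congr 2
      omega
    have e2 : rho c (s + 2 * l) = rho c s + 2 * (l / 41) := by
      rw [rho_add (s := s) (by omega) (by omega)]
      congr 1
      omega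
    rw [e1, e2] at hd
    exact ih (l / 41) (by omega) (by omega) (rho c s) hd

lemma no_square' {s m e : ℕ} (h : Eqv s m m e) (hs : s < m) : False := by
  obtain ⟨l, rfl⟩ : ∃ l, m = s + l := ⟨m - s, by omega⟩
  have he : e = s + 2 * l := by
    have := h.2.2.1
    omega
  rw [he] at h
  exact no_square l (by omega) s h

/-- abaca.bc -/
lemma formA : ∀ N s0 s1 s2 s3 s4 s5 t0 t1 t2 : ℕ, s5 ≤ N → s0 < s1 → s1 < s2 → s3 < s4 →
    Eqv s0 s1 s2 s3 → Eqv s0 s1 s4 s5 → Eqv s1 s2 t0 t1 → Eqv s3 s4 t1 t2 → False := by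
  intro N
  induction N with
  | zero =>
    intro s0 s1 s2 s3 s4 s5 t0 t1 t2 hN h01 h12 h34 e1 e2 e3 e4
    have := e2.2.1
    have := e2.2.2.1
    omega
  | succ N ih =>
    intro s0 s1 s2 s3 s4 s5 t0 t1 t2 hN h01 h12 h34 e1 e2 e3 e4
    have hres : (s1 - s0) % 41 = 0 := by
      have r1 := e1.res
      have r2 := e2.res
      have r3 := e3.res
      have r4 := e4.res
      have l1 := e1.2.2.1
      have l2 := e2.2.2.1
      have l3 := e3.2.2.1
      have l4 := e4.2.2.1
      omega
    obtain ⟨c, hc2, hc3, hc⟩ := exists_away [s0, s1, s2, s3, s4, s5, t0, t1, t2] (by simp)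
    simp only [List.mem_cons, List.not_mem_nil, or_false, forall_eq_or_imp, forall_eq] at hc
    obtain ⟨a0, a1, a2, a3, a4, a5, b0, b1, b2⟩ := hc
    have d1 := e1.descend c hc2 hc3 a0 a1 a2 a3
    have d2 := e2.descend c hc2 hc3 a0 a1 a4 a5
    have d3 := e3.descend c hc2 hc3 a1 a2 b0 b1
    have d4 := e4.descend c hc2 hc3 a3 a4 b1 b2
    have hA : rho c s0 < rho c s1 := by
      rw [rho_add (s := s0) (e := s1) hres (by omega)]
      omega
    rcases Nat.lt_or_ge (rho c s1) (rho c s2) with hB | hB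
    · rcases Nat.lt_or_ge (rho c s3) (rho c s4) with hC | hC
      · have h5 : 0 < s5 := by
          have := e2.2.1
          have := e2.2.2.1
          omega
        have := rho_lt hc2 h5
        exact ih _ _ _ _ _ _ _ _ _ (by omega) hA hB hC d1 d2 d3 d4
      · have hCe : rho c s4 = rho c s3 := le_antisymm hC d4.1
        have d5 := d1.trans' d2
        rw [hCe] at d5
        refine no_square' d5 ?_
        have := d1.2.2.1
        omega
    · have hBe : rho c s2 = rho c s1 := le_antisymm hB d3.1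
      rw [hBe] at d1
      exact no_square' d1 hA

/-- abaca.cb -/
lemma formB : ∀ N s0 s1 s2 s3 s4 s5 t0 t1 t2 : ℕ, s5 ≤ N → s0 < s1 → s1 < s2 → s3 < s4 →
    Eqv s0 s1 s2 s3 → Eqv s0 s1 s4 s5 → Eqv s1 s2 t1 t2 → Eqv s3 s4 t0 t1 → False := by
  intro N
  induction N with
  | zero =>
    intro s0 s1 s2 s3 s4 s5 t0 t1 t2 hN h01 h12 h34 e1 e2 e3 e4
    have := e2.2.1
    have := e2.2.2.1
    omega
  | succ N ih =>
    intro s0 s1 s2 s3 s4 s5 t0 t1 t2 hN h01 h12 h34 e1 e2 e3 e4
    have hres : (s1 - s0) % 41 = 0 := by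
      have r1 := e1.res
      have r2 := e2.res
      have r3 := e3.res
      have r4 := e4.res
      have l1 := e1.2.2.1
      have l2 := e2.2.2.1
      have l3 := e3.2.2.1
      have l4 := e4.2.2.1
      omega
    obtain ⟨c, hc2, hc3, hc⟩ := exists_away [s0, s1, s2, s3, s4, s5, t0, t1, t2] (by simp)
    simp only [List.mem_cons, List.not_mem_nil, or_false, forall_eq_or_imp, forall_eq] at hc
    obtain ⟨a0, a1, a2, a3, a4, a5, b0, b1, b2⟩ := hc
    have d1 := e1.descend c hc2 hc3 a0 a1 a2 a3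
    have d2 := e2.descend c hc2 hc3 a0 a1 a4 a5
    have d3 := e3.descend c hc2 hc3 a1 a2 b1 b2
    have d4 := e4.descend c hc2 hc3 a3 a4 b0 b1
    have hA : rho c s0 < rho c s1 := by
      rw [rho_add (s := s0) (e := s1) hres (by omega)]
      omega
    rcases Nat.lt_or_ge (rho c s1) (rho c s2) with hB | hB
    · rcases Nat.lt_or_ge (rho c s3) (rho c s4) with hC | hC
      · have h5 : 0 < s5 := by
          have := e2.2.1
          have := e2.2.2.1
          omega
        have := rho_lt hc2 h5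
        exact ih _ _ _ _ _ _ _ _ _ (by omega) hA hB hC d1 d2 d3 d4
      · have hCe : rho c s4 = rho c s3 := le_antisymm hC d4.1
        have d5 := d1.trans' d2
        rw [hCe] at d5
        refine no_square' d5 ?_
        have := d1.2.2.1
        omega
    · have hBe : rho c s2 = rho c s1 := le_antisymm hB d3.1
      rw [hBe] at d1
      exact no_square' d1 hA

/-- aba.bcac -/
lemma formC : ∀ N s0 s1 s2 s3 t0 t1 t2 t3 t4 : ℕ, t4 ≤ N → s0 < s1 → s1 < s2 → t1 < t2 →
    Eqv s0 s1 s2 s3 → Eqv s0 s1 t2 t3 → Eqv s1 s2 t0 t1 → Eqv t1 t2 t3 t4 → False := by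
  intro N
  induction N with
  | zero =>
    intro s0 s1 s2 s3 t0 t1 t2 t3 t4 hN h01 h12 h34 e1 e2 e3 e4
    have := e4.2.1
    have := e4.2.2.1
    omega
  | succ N ih =>
    intro s0 s1 s2 s3 t0 t1 t2 t3 t4 hN h01 h12 h34 e1 e2 e3 e4
    have hres : (t2 - t1) % 41 = 0 := by
      have r1 := e1.res
      have r2 := e2.res
      have r3 := e3.res
      have r4 := e4.res
      have l1 := e1.2.2.1
      have l2 := e2.2.2.1
      have l3 := e3.2.2.1
      have l4 := e4.2.2.1
      omega
    obtain ⟨c, hc2, hc3, hc⟩ := exists_away [s0, s1, s2, s3, t0, t1, t2, t3, t4] (by simp)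
    simp only [List.mem_cons, List.not_mem_nil, or_false, forall_eq_or_imp, forall_eq] at hc
    obtain ⟨a0, a1, a2, a3, b0, b1, b2, b3, b4⟩ := hc
    have d1 := e1.descend c hc2 hc3 a0 a1 a2 a3
    have d2 := e2.descend c hc2 hc3 a0 a1 b2 b3
    have d3 := e3.descend c hc2 hc3 a1 a2 b0 b1
    have d4 := e4.descend c hc2 hc3 b1 b2 b3 b4
    have hC : rho c t1 < rho c t2 := by
      rw [rho_add (s := t1) (e := t2) hres (by omega)]
      omega
    rcases Nat.lt_or_ge (rho c s0) (rho c s1) with hA | hA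
    · rcases Nat.lt_or_ge (rho c s1) (rho c s2) with hB | hB
      · have h5 : 0 < t4 := by
          have := e4.2.1
          have := e4.2.2.1
          omega
        have := rho_lt hc2 h5
        exact ih _ _ _ _ _ _ _ _ _ (by omega) hA hB hC d1 d2 d3 d4
      · have hBe : rho c s2 = rho c s1 := le_antisymm hB d3.1
        rw [hBe] at d1
        exact no_square' d1 hA
    · have hAe : rho c t3 = rho c t2 := by
        have := d2.2.2.1
        have := d2.1
        have := d2.2.1
        omega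
      rw [hAe] at d4
      exact no_square' d4 hC

/-- aba.cacb -/
lemma formD : ∀ N s0 s1 s2 s3 t0 t1 t2 t3 t4 : ℕ, t4 ≤ N → s0 < s1 → s1 < s2 → t0 < t1 →
    Eqv s0 s1 s2 s3 → Eqv s0 s1 t1 t2 → Eqv s1 s2 t3 t4 → Eqv t0 t1 t2 t3 → False := by
  intro N
  induction N with
  | zero =>
    intro s0 s1 s2 s3 t0 t1 t2 t3 t4 hN h01 h12 h34 e1 e2 e3 e4
    have := e3.2.1
    have := e3.2.2.1
    omega
  | succ N ih =>
    intro s0 s1 s2 s3 t0 t1 t2 t3 t4 hN h01 h12 h34 e1 e2 e3 e4
    have hres : (t1 - t0) % 41 = 0 := by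
      have r1 := e1.res
      have r2 := e2.res
      have r3 := e3.res
      have r4 := e4.res
      have l1 := e1.2.2.1
      have l2 := e2.2.2.1
      have l3 := e3.2.2.1
      have l4 := e4.2.2.1
      omega
    obtain ⟨c, hc2, hc3, hc⟩ := exists_away [s0, s1, s2, s3, t0, t1, t2, t3, t4] (by simp)
    simp only [List.mem_cons, List.not_mem_nil, or_false, forall_eq_or_imp, forall_eq] at hc
    obtain ⟨a0, a1, a2, a3, b0, b1, b2, b3, b4⟩ := hc
    have d1 := e1.descend c hc2 hc3 a0 a1 a2 a3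
    have d2 := e2.descend c hc2 hc3 a0 a1 b1 b2
    have d3 := e3.descend c hc2 hc3 a1 a2 b3 b4
    have d4 := e4.descend c hc2 hc3 b0 b1 b2 b3
    have hC : rho c t0 < rho c t1 := by
      rw [rho_add (s := t0) (e := t1) hres (by omega)]
      omega
    rcases Nat.lt_or_ge (rho c s0) (rho c s1) with hA | hA
    · rcases Nat.lt_or_ge (rho c s1) (rho c s2) with hB | hB
      · have h5 : 0 < t4 := by
          have := e3.2.1
          have := e3.2.2.1
          omega
        have := rho_lt hc2 h5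
        exact ih _ _ _ _ _ _ _ _ _ (by omega) hA hB hC d1 d2 d3 d4
      · have hBe : rho c s2 = rho c s1 := le_antisymm hB d3.1
        rw [hBe] at d1
        exact no_square' d1 hA
    · have hAe : rho c t2 = rho c t1 := by
        have := d2.2.2.1
        have := d2.1
        have := d2.2.1
        omega
      rw [hAe] at d4
      exact no_square' d4 hC

/-- aba.acabc -/
lemma formE : ∀ N s0 s1 s2 s3 t0 t1 t2 t3 t4 t5 : ℕ, t5 ≤ N → s0 < s1 → s1 < s2 → t1 < t2 →
    Eqv s0 s1 s2 s3 → Eqv s0 s1 t0 t1 → Eqv s0 s1 t2 t3 → Eqv s1 s2 t3 t4 → Eqv t1 t2 t4 t5 →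
    False := by
  intro N
  induction N with
  | zero =>
    intro s0 s1 s2 s3 t0 t1 t2 t3 t4 t5 hN h01 h12 h34 e1 e2 e3 e4 e5
    have := e5.2.1
    have := e5.2.2.1
    omega
  | succ N ih =>
    intro s0 s1 s2 s3 t0 t1 t2 t3 t4 t5 hN h01 h12 h34 e1 e2 e3 e4 e5
    have hres : (s1 - s0) % 41 = 0 := by
      have r1 := e1.res
      have r2 := e2.res
      have r3 := e3.res
      have r4 := e4.res
      have r5 := e5.res
      have l1 := e1.2.2.1
      have l2 := e2.2.2.1
      have l3 := e3.2.2.1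
      have l4 := e4.2.2.1
      have l5 := e5.2.2.1
      omega
    obtain ⟨c, hc2, hc3, hc⟩ := exists_away [s0, s1, s2, s3, t0, t1, t2, t3, t4, t5] (by simp)
    simp only [List.mem_cons, List.not_mem_nil, or_false, forall_eq_or_imp, forall_eq] at hc
    obtain ⟨a0, a1, a2, a3, b0, b1, b2, b3, b4, b5⟩ := hc
    have d1 := e1.descend c hc2 hc3 a0 a1 a2 a3
    have d2 := e2.descend c hc2 hc3 a0 a1 b0 b1
    have d3 := e3.descend c hc2 hc3 a0 a1 b2 b3
    have d4 := e4.descend c hc2 hc3 a1 a2 b3 b4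
    have d5 := e5.descend c hc2 hc3 b1 b2 b4 b5
    have hA : rho c s0 < rho c s1 := by
      rw [rho_add (s := s0) (e := s1) hres (by omega)]
      omega
    rcases Nat.lt_or_ge (rho c s1) (rho c s2) with hB | hB
    · rcases Nat.lt_or_ge (rho c t1) (rho c t2) with hC | hC
      · have h5 : 0 < t5 := by
          have := e5.2.1
          have := e5.2.2.1
          omega
        have := rho_lt hc2 h5
        exact ih _ _ _ _ _ _ _ _ _ _ (by omega) hA hB hC d1 d2 d3 d4 d5
      · have hCe : rho c t2 = rho c t1 := le_antisymm hC d5.1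
        have d6 := d2.trans' d3
        rw [hCe] at d6
        refine no_square' d6 ?_
        have := d2.2.2.1
        omega
    · have hBe : rho c s2 = rho c s1 := le_antisymm hB d4.1
      rw [hBe] at d1
      exact no_square' d1 hA

end Pool.Agent.W_MP_a7fafd_co
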