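import Mathlib
import Pool.Agent.W_MP_a7fafd_co.Formulas

/-!
From factorizations of factors of the word to cut points.
-/

namespace Pool.Agent.W_MP_a7fafd_co

open Finset

/-- relabelling of the alphabet -/
noncomputable def relab : Z × Z ≃ Fin (Fintype.card (Z × Z)) := Fintype.equivFin (Z × Z)

/-- factor of length `l` at position `x` of the relabelled word -/
noncomputable def seg (x l : ℕ) : List (Fin (Fintype.card (Z × Z))) :=
  (List.range' x l).map (fun t => relab (W t))

lemma seg_length (x l : ℕ) : (seg x l).length = l := by
  simp [seg]

lemma seg_add (x a b : ℕ) : seg x (a + b) = seg x a ++ seg (x + a) b := by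
  unfold seg
  rw [← List.map_append, List.range'_append_1]

lemma seg_split {u v : List (Fin (Fintype.card (Z × Z)))} {x l : ℕ} (h : u ++ v = seg x l) :
    u = seg x u.length ∧ v = seg (x + u.length) v.length := by
  have hl : u.length + v.length = l := by
    have := congrArg List.length h
    rw [List.length_append, seg_length] at this
    exact this
  rw [← hl, seg_add] at h
  have := List.append_inj h (by rw [seg_length])
  exact this

lemma flatten_seg (us : List (List (Fin (Fintype.card (Z × Z))))) :
    ∀ x l, us.flatten = seg x l → ∀ i (hi : i < us.length),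
      us[i] = seg (x + (us.take i).flatten.length) (us[i].length) := by
  induction us with
  | nil => intro x l _ i hi; simp at hi
  | cons u us ih =>
    intro x l h i hi
    rw [List.flatten_cons] at h
    obtain ⟨h1, h2⟩ := seg_split h
    cases i with
    | zero => simpa using h1
    | succ i =>
      have := ih (x + u.length) us.flatten.length h2 i (by simpa using hi)
      simp only [List.getElem_cons_succ, List.take_succ_cons, List.flatten_cons,
        List.length_append]
      rw [← Nat.add_assoc]
      exact this

lemma count_seg (x l : ℕ) (a : Z × Z) :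
    ((seg x l).count (relab a) : ℤ) = P (x + l) a - P x a := by
  induction l with
  | zero => simp [seg]
  | succ l ih =>
    rw [seg_add, List.count_append]
    push_cast
    rw [ih]
    have h1 : P (x + (l + 1)) a = P (x + l) a + if W (x + l) = a then 1 else 0 := by
      unfold P
      rw [← Nat.add_assoc, Finset.sum_range_succ]
    rw [h1]
    have h2 : ((seg (x + l) 1).count (relab a) : ℤ) = if W (x + l) = a then 1 else 0 := by
      unfold seg
      simp only [List.range'_one, List.map_cons, List.map_nil, List.count_singleton]
      by_cases h : W (x + l) = a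
      · simp [h]
      · have : relab (W (x + l)) ≠ relab a := fun h' => h (relab.injective h')
        simp [h, this]
    rw [h2]
    ring

lemma Eqv_of_perm {x l x' l' : ℕ} (h : (seg x l).Perm (seg x' l')) :
    Eqv x (x + l) x' (x' + l') := by
  have hl : l = l' := by
    have := h.length_eq
    rwa [seg_length, seg_length] at this
  refine ⟨by omega, by omega, by omega, ?_⟩
  intro a
  rw [← count_seg, ← count_seg]
  rw [h.count_eq]

/-- Cut points of a factorization. -/
lemma cuts {m : ℕ} (u : Fin m → List (Fin (Fintype.card (Z × Z)))) (hne : ∀ i, u i ≠ [])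
    (n : ℕ) (h : (List.ofFn u).flatten <:+: seg 0 n) :
    ∃ x : ℕ → ℕ, (∀ i : ℕ, i < m → x i < x (i + 1)) ∧
      ∀ i j : Fin m, (u i).Perm (u j) → Eqv (x i) (x (i + 1)) (x j) (x (j + 1)) := by
  obtain ⟨s, t, hst⟩ := h
  rw [List.append_assoc] at hst
  obtain ⟨_, h2⟩ := seg_split hst
  obtain ⟨h3, _⟩ := seg_split h2
  set us := List.ofFn u with hus
  have hlen : us.length = m := by simp [hus]
  refine ⟨fun i => 0 + s.length + (us.take i).flatten.length, ?_, ?_⟩
  · intro i hi
    have hi' : i < us.length := by rw [hlen]; exact hi
    have h4 : us.take (i + 1) = us.take i ++ [us[i]] := by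
      rw [List.take_succ_eq_append_getElem hi']
    simp only [h4, List.flatten_append, List.length_append, List.flatten_cons, List.flatten_nil,
      List.append_nil]
    have h5 : us[i] = u ⟨i, hi⟩ := by simp [hus]
    have h6 : 0 < (us[i]).length := by
      rw [h5]
      exact List.length_pos_of_ne_nil (hne _)
    omega
  · intro i j hij
    have hi' : (i : ℕ) < us.length := by rw [hlen]; exact i.2
    have hj' : (j : ℕ) < us.length := by rw [hlen]; exact j.2
    have h4 : us.take (i + 1) = us.take i ++ [us[(i : ℕ)]] := by
      rw [List.take_succ_eq_append_getElem hi']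
    have h4' : us.take (j + 1) = us.take j ++ [us[(j : ℕ)]] := by
      rw [List.take_succ_eq_append_getElem hj']
    have h5 : us[(i : ℕ)] = u i := by simp [hus]
    have h5' : us[(j : ℕ)] = u j := by simp [hus]
    have h6 := flatten_seg us _ _ h3 i hi'
    have h6' := flatten_seg us _ _ h3 j hj'
    have hp : (us[(i : ℕ)]).Perm (us[(j : ℕ)]) := by rw [h5, h5']; exact hij
    rw [h6, h6'] at hp
    have := Eqv_of_perm hp
    simp only [h4, h4', List.flatten_append, List.length_append, List.flatten_cons,
      List.flatten_nil, List.append_nil]
    rw [← Nat.add_assoc, ← Nat.add_assoc]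
    exact this

end Pool.Agent.W_MP_a7fafd_co
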